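import Mathlib

/-!
# Fourteen quadratic forms in characteristic two with a non-representable algebraic matroid

Settles Q2 of the problem in the negative: over every field `F` of characteristic two the fourteen
quadratic forms in four variables

`x_i^2` (`i = 0,1,2,3`), `x_i x_j` (`i < j`), `(x_0+x_1)^2`, `(x_0+x_2)^2`, `(x_1+x_2)^2`,
`(x_0+x_1+x_2)^2`

have an algebraic matroid which is not representable over any field.
-/

set_option linter.all false

namespace Pool.Agent.Results.MP_188fab_co.QuadricsNotLinear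

open MvPolynomial

universe u v w

/-- The algebraic matroid of the family `g` is the linear matroid of the family `x` of vectors of
the `K`-vector space `V`: both have the same independent sets. -/
def SameMatroid (F : Type u) [Field F] {m N : ℕ} (g : Fin N → MvPolynomial (Fin m) F)
    (K : Type v) [Field K] (V : Type w) [AddCommGroup V] [Module K V] (x : Fin N → V) : Prop :=
  ∀ S : Set (Fin N), AlgebraicIndependent F (fun i : S => g i) ↔
    LinearIndependent K (fun i : S => x i)

/-- The algebraic matroid of `g` is representable over some field (in the universes `v`, `w`). -/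
def AlgMatroidRepresentable (F : Type u) [Field F] {m N : ℕ}
    (g : Fin N → MvPolynomial (Fin m) F) : Prop :=
  ∃ (K : Type v) (_ : Field K) (V : Type w) (_ : AddCommGroup V) (_ : Module K V)
    (x : Fin N → V), SameMatroid F g K V x

/-- The fourteen quadratic forms. -/
noncomputable def forms (F : Type u) [Field F] : Fin 14 → MvPolynomial (Fin 4) F :=
  ![X 0 ^ 2, X 1 ^ 2, X 2 ^ 2, X 3 ^ 2,
    X 0 * X 1, X 0 * X 2, X 0 * X 3, X 1 * X 2, X 1 * X 3, X 2 * X 3,
    (X 0 + X 1) ^ 2, (X 0 + X 2) ^ 2, (X 1 + X 2) ^ 2, (X 0 + X 1 + X 2) ^ 2]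

/-! ### General tools -/

section tools

variable {F : Type u} [Field F]

/-- Transfer along an injective relabelling. -/
theorem same_comp {m N k : ℕ} {g : Fin N → MvPolynomial (Fin m) F}
    {K : Type v} [Field K] {V : Type w} [AddCommGroup V] [Module K V] {x : Fin N → V}
    (h : SameMatroid F g K V x) (f : Fin k → Fin N) (hf : Function.Injective f) :
    AlgebraicIndependent F (g ∘ f) ↔ LinearIndependent K (x ∘ f) := by
  have h1 := h (Set.range f)
  have e1 : AlgebraicIndependent F (g ∘ f) ↔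
      AlgebraicIndependent F (fun i : Set.range f => g i) :=
    algebraicIndependent_equiv' (Equiv.ofInjective f hf) rfl
  have e2 : LinearIndependent K (x ∘ f) ↔
      LinearIndependent K (fun i : Set.range f => x i) :=
    linearIndependent_equiv' (Equiv.ofInjective f hf) rfl
  rw [e1, e2, h1]

/-- An explicit relation shows dependence. -/
theorem not_algInd_of_rel {m k : ℕ} {g : Fin k → MvPolynomial (Fin m) F}
    (P : MvPolynomial (Fin k) F) (hP : aeval g P = 0) (y : Fin k → F) (hy : eval y P ≠ 0) :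
    ¬ AlgebraicIndependent F g := by
  intro h
  have := h.eq_zero_of_aeval_eq_zero P hP
  rw [this] at hy
  simp at hy

/-- Monomials with independent exponent vectors are algebraically independent. -/
theorem algInd_monomial {m k : ℕ} (e : Fin k → (Fin m →₀ ℕ))
    (he : Function.Injective (fun c : Fin k →₀ ℕ => c.sum (fun i n => n • e i))) :
    AlgebraicIndependent F (fun i => (monomial (e i) (1 : F) : MvPolynomial (Fin m) F)) := by
  let φ : (Fin k →₀ ℕ) →+ (Fin m →₀ ℕ) :=
    { toFun := fun c : Fin k →₀ ℕ => c.sum (fun i n => n • e i)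
      map_zero' := by simp
      map_add' := by
        intro a b
        rw [Finsupp.sum_add_index']
        · intro i; simp
        · intro i p q; rw [add_smul] }
  let Φ : MvPolynomial (Fin k) F →ₐ[F] MvPolynomial (Fin m) F :=
    AddMonoidAlgebra.mapDomainAlgHom F F φ
  have key : (aeval (fun i => (monomial (e i) (1 : F) : MvPolynomial (Fin m) F))) = Φ := by
    apply MvPolynomial.algHom_ext
    intro i
    rw [aeval_X]
    have h1 : Φ (X i) = AddMonoidAlgebra.mapDomain φ (AddMonoidAlgebra.single (Finsupp.single i 1) (1 : F)) := rfl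
    rw [h1, AddMonoidAlgebra.mapDomain_single]
    have h2 : φ (Finsupp.single i 1) = e i := by
      show (Finsupp.single i 1).sum (fun i n => n • e i) = e i
      rw [Finsupp.sum_single_index] <;> simp
    rw [h2]
    rfl
  show Function.Injective (aeval (fun i => (monomial (e i) (1 : F) : MvPolynomial (Fin m) F)))
  rw [key]
  exact AddMonoidAlgebra.mapDomain_injective he

/-- Monomials given by exponent functions. -/
theorem algInd_of_exp {m k : ℕ} (e : Fin k → Fin m → ℕ)
    (he : ∀ c d : Fin k → ℕ, (∀ j, ∑ i, c i * e i j = ∑ i, d i * e i j) → c = d)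
    (g : Fin k → MvPolynomial (Fin m) F) (hg : ∀ i, g i = ∏ j, X j ^ e i j) :
    AlgebraicIndependent F g := by
  have h0 : g = fun i => (monomial (Finsupp.equivFunOnFinite.symm (e i)) (1 : F)) := by
    funext i
    rw [hg i, MvPolynomial.monomial_eq]
    rw [Finsupp.prod_fintype]
    · simp
    · intro j; simp
  rw [h0]
  apply algInd_monomial
  intro c d hcd
  apply DFunLike.coe_injective
  apply he
  intro j
  have h1 := DFunLike.congr_fun hcd j
  simp only at h1
  rw [Finsupp.sum_fintype _ _ (by intro i; simp), Finsupp.sum_fintype _ _ (by intro i; simp)] at h1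
  rw [Finsupp.finset_sum_apply, Finsupp.finset_sum_apply] at h1
  simpa using h1

theorem same2 {m N : ℕ} {g : Fin N → MvPolynomial (Fin m) F}
    {K : Type v} [Field K] {V : Type w} [AddCommGroup V] [Module K V] {x : Fin N → V}
    (h : SameMatroid F g K V x) (i j : Fin N) (hij : i ≠ j) :
    AlgebraicIndependent F ![g i, g j] ↔ LinearIndependent K ![x i, x j] := by
  have h1 := same_comp h ![i, j] (by
    intro a b hab
    fin_cases a <;> fin_cases b <;> simp_all)
  have e1 : g ∘ ![i, j] = ![g i, g j] := by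
    funext a; fin_cases a <;> rfl
  have e2 : x ∘ ![i, j] = ![x i, x j] := by
    funext a; fin_cases a <;> rfl
  rwa [e1, e2] at h1

theorem same3 {m N : ℕ} {g : Fin N → MvPolynomial (Fin m) F}
    {K : Type v} [Field K] {V : Type w} [AddCommGroup V] [Module K V] {x : Fin N → V}
    (h : SameMatroid F g K V x) (i j k : Fin N) (hij : i ≠ j) (hik : i ≠ k) (hjk : j ≠ k) :
    AlgebraicIndependent F ![g i, g j, g k] ↔ LinearIndependent K ![x i, x j, x k] := by
  have h1 := same_comp h ![i, j, k] (by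
    intro a b hab
    fin_cases a <;> fin_cases b <;> simp_all)
  have e1 : g ∘ ![i, j, k] = ![g i, g j, g k] := by
    funext a; fin_cases a <;> rfl
  have e2 : x ∘ ![i, j, k] = ![x i, x j, x k] := by
    funext a; fin_cases a <;> rfl
  rwa [e1, e2] at h1

theorem same4 {m N : ℕ} {g : Fin N → MvPolynomial (Fin m) F}
    {K : Type v} [Field K] {V : Type w} [AddCommGroup V] [Module K V] {x : Fin N → V}
    (h : SameMatroid F g K V x) (i j k l : Fin N) (hinj : Function.Injective ![i, j, k, l]) :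
    AlgebraicIndependent F ![g i, g j, g k, g l] ↔
      LinearIndependent K ![x i, x j, x k, x l] := by
  have h1 := same_comp h ![i, j, k, l] hinj
  have e1 : g ∘ ![i, j, k, l] = ![g i, g j, g k, g l] := by
    funext a; fin_cases a <;> rfl
  have e2 : x ∘ ![i, j, k, l] = ![x i, x j, x k, x l] := by
    funext a; fin_cases a <;> rfl
  rwa [e1, e2] at h1

end tools

/-! ### Linear algebra -/

section linear

variable {K : Type v} [Field K] {V : Type w} [AddCommGroup V] [Module K V]

theorem li2 {x y : V} (h : LinearIndependent K ![x, y]) {a b : K}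
    (H : a • x + b • y = 0) : a = 0 ∧ b = 0 := by
  have h1 := Fintype.linearIndependent_iff.1 h ![a, b] (by simpa [Fin.sum_univ_two] using H)
  exact ⟨h1 0, h1 1⟩

theorem li3 {x y z : V} (h : LinearIndependent K ![x, y, z]) {a b c : K}
    (H : a • x + b • y + c • z = 0) : a = 0 ∧ b = 0 ∧ c = 0 := by
  have h1 := Fintype.linearIndependent_iff.1 h ![a, b, c] (by simpa [Fin.sum_univ_three] using H)
  exact ⟨h1 0, h1 1, h1 2⟩

theorem li4 {x y z t : V} (h : LinearIndependent K ![x, y, z, t]) {a b c d : K}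
    (H : a • x + b • y + c • z + d • t = 0) : a = 0 ∧ b = 0 ∧ c = 0 ∧ d = 0 := by
  have h1 := Fintype.linearIndependent_iff.1 h ![a, b, c, d]
    (by simpa [Fin.sum_univ_four] using H)
  exact ⟨h1 0, h1 1, h1 2, h1 3⟩

theorem nli3 {x y z : V} (h : ¬ LinearIndependent K ![x, y, z]) :
    ∃ a b c : K, a • x + b • y + c • z = 0 ∧ ¬ (a = 0 ∧ b = 0 ∧ c = 0) := by
  obtain ⟨f, hf, i, hi⟩ := Fintype.not_linearIndependent_iff.1 h
  refine ⟨f 0, f 1, f 2, by simpa [Fin.sum_univ_three] using hf, ?_⟩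
  rintro ⟨h0, h1, h2⟩
  fin_cases i <;> simp_all

theorem nli4 {x y z t : V} (h : ¬ LinearIndependent K ![x, y, z, t]) :
    ∃ a b c d : K, a • x + b • y + c • z + d • t = 0 ∧ ¬ (a = 0 ∧ b = 0 ∧ c = 0 ∧ d = 0) := by
  obtain ⟨f, hf, i, hi⟩ := Fintype.not_linearIndependent_iff.1 h
  refine ⟨f 0, f 1, f 2, f 3, by simpa [Fin.sum_univ_four] using hf, ?_⟩
  rintro ⟨h0, h1, h2, h3⟩
  fin_cases i <;> simp_all

/-- A vector dependent on two others, but on neither of them alone. -/
theorem two_coeffs {x y z : V} (hxy : LinearIndependent K ![x, y])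
    (h3 : ¬ LinearIndependent K ![x, y, z]) (hxz : LinearIndependent K ![x, z])
    (hyz : LinearIndependent K ![y, z]) : ∃ a b : K, a ≠ 0 ∧ b ≠ 0 ∧ z = a • x + b • y := by
  obtain ⟨a, b, c, h, hn⟩ := nli3 h3
  have hc : c ≠ 0 := by
    rintro rfl
    have := li2 hxy (a := a) (b := b) (by simpa using h)
    exact hn ⟨this.1, this.2, rfl⟩
  refine ⟨-(c⁻¹ * a), -(c⁻¹ * b), ?_, ?_, ?_⟩
  · intro h0
    have ha : a = 0 := by
      have := neg_eq_zero.1 h0
      rcases mul_eq_zero.1 this with h' | h'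
      · exact absurd h' (inv_ne_zero hc)
      · exact h'
    subst ha
    have := li2 hyz (a := b) (b := c) (by simpa using h)
    exact hc this.2
  · intro h0
    have hb : b = 0 := by
      have := neg_eq_zero.1 h0
      rcases mul_eq_zero.1 this with h' | h'
      · exact absurd h' (inv_ne_zero hc)
      · exact h'
    subst hb
    have := li2 hxz (a := a) (b := c) (by simpa using h)
    exact hc this.2
  · have : z = c⁻¹ • (c • z) := by rw [smul_smul, inv_mul_cancel₀ hc, one_smul]
    rw [this]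
    have h2 : c • z = -(a • x) - b • y := by
      rw [eq_sub_iff_add_eq, eq_neg_iff_add_eq_zero, ← h]; abel
    rw [h2]
    module

/-- Four vectors along a four-cycle: `w1 = a1 x + b1 y`, `w2 = a2 y + b2 z`, `w3 = a3 z + b3 t`,
`w4 = a4 t + b4 x`. -/
theorem cycle4 {x y z t : V} (h : LinearIndependent K ![x, y, z, t])
    {a1 b1 a2 b2 a3 b3 a4 b4 : K} (hb1 : b1 ≠ 0) (ha2 : a2 ≠ 0) (hb2 : b2 ≠ 0) (ha3 : a3 ≠ 0)
    (hb3 : b3 ≠ 0) (ha4 : a4 ≠ 0) (hb4 : b4 ≠ 0) (ha1 : a1 ≠ 0)
    (hd : ¬ LinearIndependent K ![a1 • x + b1 • y, a2 • y + b2 • z, a3 • z + b3 • t,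
      a4 • t + b4 • x]) :
    a1 * a2 * a3 * a4 = b1 * b2 * b3 * b4 := by
  obtain ⟨c1, c2, c3, c4, hc, hn⟩ := nli4 hd
  have h1 := li4 h (a := c1 * a1 + c4 * b4) (b := c1 * b1 + c2 * a2) (c := c2 * b2 + c3 * a3)
    (d := c3 * b3 + c4 * a4) (by rw [← hc]; module)
  obtain ⟨e1, e2, e3, e4⟩ := h1
  have f1 : c1 * a1 = -(c4 * b4) := by linear_combination e1
  have f2 : c2 * a2 = -(c1 * b1) := by linear_combination e2
  have f3 : c3 * a3 = -(c2 * b2) := by linear_combination e3
  have f4 : c4 * a4 = -(c3 * b3) := by linear_combination e4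
  have hne : c1 ≠ 0 := by
    rintro rfl
    have q4 : c4 = 0 := by
      have : c4 * b4 = 0 := by linear_combination e1
      exact (mul_eq_zero.1 this).resolve_right hb4
    subst q4
    have q3 : c3 = 0 := by
      have : c3 * b3 = 0 := by linear_combination e4
      exact (mul_eq_zero.1 this).resolve_right hb3
    subst q3
    have q2 : c2 = 0 := by
      have : c2 * b2 = 0 := by linear_combination e3
      exact (mul_eq_zero.1 this).resolve_right hb2
    exact hn ⟨rfl, q2, rfl, rfl⟩
  have hc4 : c4 ≠ 0 := by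
    rintro rfl
    have : c1 * a1 = 0 := by linear_combination f1
    exact (mul_ne_zero hne ha1) this
  have hc3 : c3 ≠ 0 := by
    rintro rfl
    have : c4 * a4 = 0 := by linear_combination f4
    exact (mul_ne_zero hc4 ha4) this
  have hc2 : c2 ≠ 0 := by
    rintro rfl
    have : c3 * a3 = 0 := by linear_combination f3
    exact (mul_ne_zero hc3 ha3) this
  have hprod : (c1 * c2 * c3 * c4) * (a1 * a2 * a3 * a4) =
      (c1 * c2 * c3 * c4) * (b1 * b2 * b3 * b4) := by
    calc (c1 * c2 * c3 * c4) * (a1 * a2 * a3 * a4)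
        = (c1 * a1) * (c2 * a2) * (c3 * a3) * (c4 * a4) := by ring
      _ = (-(c4 * b4)) * (-(c1 * b1)) * (-(c2 * b2)) * (-(c3 * b3)) := by rw [f1, f2, f3, f4]
      _ = _ := by ring
  exact mul_left_cancel₀ (mul_ne_zero (mul_ne_zero (mul_ne_zero hne hc2) hc3) hc4) hprod

end linear

/-! ### The algebraic side -/

section alg

variable {F : Type u} [Field F]

theorem ind_sq4 : AlgebraicIndependent F
    ![(X 0 : MvPolynomial (Fin 4) F) ^ 2, X 1 ^ 2, X 2 ^ 2, X 3 ^ 2] := by
  apply algInd_of_exp ![![2, 0, 0, 0], ![0, 2, 0, 0], ![0, 0, 2, 0], ![0, 0, 0, 2]]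
  · intro c d h
    have h0 := h 0
    have h1 := h 1
    have h2 := h 2
    have h3 := h 3
    simp [Fin.sum_univ_four] at h0 h1 h2 h3
    funext i; fin_cases i <;> simp_all
  · intro i; fin_cases i <;> simp [Fin.prod_univ_four]

theorem ind_tri : AlgebraicIndependent F
    ![(X 0 : MvPolynomial (Fin 4) F) * X 1, X 1 * X 2, X 0 * X 2] := by
  apply algInd_of_exp ![![1, 1, 0, 0], ![0, 1, 1, 0], ![1, 0, 1, 0]]
  · intro c d h
    have h0 := h 0
    have h1 := h 1
    have h2 := h 2
    simp [Fin.sum_univ_three] at h0 h1 h2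
    funext i; fin_cases i <;> simp <;> omega
  · intro i; fin_cases i <;> simp [Fin.prod_univ_four]

theorem ind_sp (i j : Fin 4) (hij : i ≠ j) : AlgebraicIndependent F
    ![(X i : MvPolynomial (Fin 4) F) ^ 2, X i * X j] := by
  apply algInd_of_exp ![fun l => if l = i then 2 else 0,
    fun l => (if l = i then 1 else 0) + (if l = j then 1 else 0)]
  · intro c d h
    have h0 := h i
    have h1 := h j
    simp [Fin.sum_univ_two, hij, hij.symm] at h0 h1
    funext i; fin_cases i <;> simp <;> omega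
  · intro l; fin_cases l
    · simp [Finset.prod_ite_eq', Finset.prod_pow_eq_pow_sum, pow_ite]
    · have key : ∀ i : Fin 4, ∏ l, (X l : MvPolynomial (Fin 4) F) ^ (if l = i then 1 else 0) = X i := by
        intro i
        simp [pow_ite]
      show X i * X j = ∏ l, (X l : MvPolynomial (Fin 4) F) ^
        ((if l = i then 1 else 0) + (if l = j then 1 else 0))
      simp_rw [pow_add]
      rw [Finset.prod_mul_distrib, key, key]


/-- A change of variables fixing all variables but one. -/
noncomputable def sub1 (F : Type u) [Field F] (i : Fin 4) (P : MvPolynomial (Fin 4) F) :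
    MvPolynomial (Fin 4) F →ₐ[F] MvPolynomial (Fin 4) F :=
  aeval (fun l => if l = i then P else X l)

theorem sub1_self (i : Fin 4) (P : MvPolynomial (Fin 4) F) : sub1 F i P (X i) = P := by
  simp [sub1]

theorem sub1_ne (i j : Fin 4) (h : j ≠ i) (P : MvPolynomial (Fin 4) F) :
    sub1 F i P (X j) = X j := by
  simp [sub1, h]

theorem two_eq_zero_mv [CharP F 2] : (2 : MvPolynomial (Fin 4) F) = 0 := by
  have : (2 : F) = 0 := CharTwo.two_eq_zero
  have h2 : (2 : MvPolynomial (Fin 4) F) = C (2 : F) := (map_ofNat C 2).symm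
  rw [h2, this, map_zero]

theorem ind_sq2 (i j : Fin 4) (hij : i ≠ j) : AlgebraicIndependent F
    ![(X i : MvPolynomial (Fin 4) F) ^ 2, X j ^ 2] := by
  have h := (ind_sq4 (F := F)).comp ![i, j] (by
    intro a b hab
    fin_cases a <;> fin_cases b <;> simp_all)
  convert h using 1
  funext a
  fin_cases a
  · fin_cases i <;> rfl
  · fin_cases j <;> rfl

theorem ind_sq3 (i j k : Fin 4) (hij : i ≠ j) (hik : i ≠ k) (hjk : j ≠ k) :
    AlgebraicIndependent F
    ![(X i : MvPolynomial (Fin 4) F) ^ 2, X j ^ 2, X k ^ 2] := by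
  have h := (ind_sq4 (F := F)).comp ![i, j, k] (by
    intro a b hab
    fin_cases a <;> fin_cases b <;> simp_all)
  convert h using 1
  funext a
  fin_cases a
  · fin_cases i <;> rfl
  · fin_cases j <;> rfl
  · fin_cases k <;> rfl

theorem ind_sq_sum [CharP F 2] (i j : Fin 4) (hij : i ≠ j) : AlgebraicIndependent F
    ![(X i : MvPolynomial (Fin 4) F) ^ 2, (X i + X j) ^ 2] := by
  apply AlgebraicIndependent.of_comp (sub1 F j (X i + X j))
  convert ind_sq2 (F := F) i j hij using 1
  funext a
  fin_cases a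
  · simp [sub1_ne, hij]
  · simp only [Function.comp]
    show sub1 F j (X i + X j) ((X i + X j) ^ 2) = X j ^ 2
    rw [map_pow, map_add, sub1_ne j i hij, sub1_self]
    linear_combination (2 * X i ^ 2 + 2 * X i * X j) * two_eq_zero_mv (F := F)

theorem ind_sq_sum3 [CharP F 2] (i j k : Fin 4) (hij : i ≠ j) (hik : i ≠ k) (hjk : j ≠ k) :
    AlgebraicIndependent F
    ![(X i : MvPolynomial (Fin 4) F) ^ 2, X j ^ 2, (X i + X j + X k) ^ 2] := by
  apply AlgebraicIndependent.of_comp (sub1 F k (X i + X j + X k))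
  convert ind_sq3 (F := F) i j k hij hik hjk using 1
  funext a
  fin_cases a
  · simp [sub1_ne, hik]
  · simp [sub1_ne, hjk]
  · simp only [Function.comp]
    show sub1 F k (X i + X j + X k) ((X i + X j + X k) ^ 2) = X k ^ 2
    rw [map_pow, map_add, map_add, sub1_ne k i hik, sub1_ne k j hjk, sub1_self]
    linear_combination (2 * X i ^ 2 + 2 * X j ^ 2 + 4 * X i * X j + 2 * X i * X k + 2 * X j * X k)
      * two_eq_zero_mv (F := F)

theorem dep_ssp (i j : Fin 4) : ¬ AlgebraicIndependent F
    ![(X i : MvPolynomial (Fin 4) F) ^ 2, X j ^ 2, X i * X j] := by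
  refine not_algInd_of_rel (X 2 ^ 2 - X 0 * X 1) ?_ ![0, 0, 1] ?_
  · simp
    ring
  · simp

theorem dep_cycle (a b c d : MvPolynomial (Fin 4) F) (h : a * c = b * d) :
    ¬ AlgebraicIndependent F ![a, b, c, d] := by
  refine not_algInd_of_rel (X 0 * X 2 - X 1 * X 3) ?_ ![1, 0, 1, 0] ?_
  · simp [h]
  · simp

theorem dep_sum3 (a b c : MvPolynomial (Fin 4) F) (h : a + b + c = 0) :
    ¬ AlgebraicIndependent F ![a, b, c] := by
  refine not_algInd_of_rel (X 0 + X 1 + X 2) ?_ ![1, 0, 0] ?_
  · simp [h]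
  · simp

theorem dep_sum4 (a b c d : MvPolynomial (Fin 4) F) (h : a + b + c + d = 0) :
    ¬ AlgebraicIndependent F ![a, b, c, d] := by
  refine not_algInd_of_rel (X 0 + X 1 + X 2 + X 3) ?_ ![1, 0, 0, 0] ?_
  · simp [h]
  · simp

end alg

/-! ### The main argument -/

section main

variable {F : Type u} [Field F] [CharP F 2]
variable {K : Type v} [Field K] {V : Type w} [AddCommGroup V] [Module K V]

theorem not_same (x : Fin 14 → V) : ¬ SameMatroid F (forms F) K V x := by
  intro h
  have t2 : (2 : MvPolynomial (Fin 4) F) = 0 := two_eq_zero_mv (F := F)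
  -- the squares are independent
  have E4 : LinearIndependent K ![x 0, x 1, x 2, x 3] :=
    (same4 h 0 1 2 3 (by decide)).1 ind_sq4
  have E3 : LinearIndependent K ![x 0, x 1, x 2] :=
    (same3 h 0 1 2 (by decide) (by decide) (by decide)).1
      (ind_sq3 (F := F) 0 1 2 (by decide) (by decide) (by decide))
  -- the products `x_i x_j`
  have c01 : ∃ a b : K, a ≠ 0 ∧ b ≠ 0 ∧ x 4 = a • x 0 + b • x 1 := two_coeffs
    ((same2 h 0 1 (by decide)).1 (ind_sq2 (F := F) 0 1 (by decide)))
    (fun H => dep_ssp (F := F) 0 1 ((same3 h 0 1 4 (by decide) (by decide) (by decide)).2 H))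
    ((same2 h 0 4 (by decide)).1 (ind_sp (F := F) 0 1 (by decide)))
    ((same2 h 1 4 (by decide)).1 (by
      have := ind_sp (F := F) 1 0 (by decide)
      rwa [mul_comm (X 1) (X 0)] at this))
  have c02 : ∃ a b : K, a ≠ 0 ∧ b ≠ 0 ∧ x 5 = a • x 0 + b • x 2 := two_coeffs
    ((same2 h 0 2 (by decide)).1 (ind_sq2 (F := F) 0 2 (by decide)))
    (fun H => dep_ssp (F := F) 0 2 ((same3 h 0 2 5 (by decide) (by decide) (by decide)).2 H))
    ((same2 h 0 5 (by decide)).1 (ind_sp (F := F) 0 2 (by decide)))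
    ((same2 h 2 5 (by decide)).1 (by
      have := ind_sp (F := F) 2 0 (by decide)
      rwa [mul_comm (X 2) (X 0)] at this))
  have c03 : ∃ a b : K, a ≠ 0 ∧ b ≠ 0 ∧ x 6 = a • x 0 + b • x 3 := two_coeffs
    ((same2 h 0 3 (by decide)).1 (ind_sq2 (F := F) 0 3 (by decide)))
    (fun H => dep_ssp (F := F) 0 3 ((same3 h 0 3 6 (by decide) (by decide) (by decide)).2 H))
    ((same2 h 0 6 (by decide)).1 (ind_sp (F := F) 0 3 (by decide)))
    ((same2 h 3 6 (by decide)).1 (by
      have := ind_sp (F := F) 3 0 (by decide)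
      rwa [mul_comm (X 3) (X 0)] at this))
  have c12 : ∃ a b : K, a ≠ 0 ∧ b ≠ 0 ∧ x 7 = a • x 1 + b • x 2 := two_coeffs
    ((same2 h 1 2 (by decide)).1 (ind_sq2 (F := F) 1 2 (by decide)))
    (fun H => dep_ssp (F := F) 1 2 ((same3 h 1 2 7 (by decide) (by decide) (by decide)).2 H))
    ((same2 h 1 7 (by decide)).1 (ind_sp (F := F) 1 2 (by decide)))
    ((same2 h 2 7 (by decide)).1 (by
      have := ind_sp (F := F) 2 1 (by decide)
      rwa [mul_comm (X 2) (X 1)] at this))
  have c13 : ∃ a b : K, a ≠ 0 ∧ b ≠ 0 ∧ x 8 = a • x 1 + b • x 3 := two_coeffs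
    ((same2 h 1 3 (by decide)).1 (ind_sq2 (F := F) 1 3 (by decide)))
    (fun H => dep_ssp (F := F) 1 3 ((same3 h 1 3 8 (by decide) (by decide) (by decide)).2 H))
    ((same2 h 1 8 (by decide)).1 (ind_sp (F := F) 1 3 (by decide)))
    ((same2 h 3 8 (by decide)).1 (by
      have := ind_sp (F := F) 3 1 (by decide)
      rwa [mul_comm (X 3) (X 1)] at this))
  have c23 : ∃ a b : K, a ≠ 0 ∧ b ≠ 0 ∧ x 9 = a • x 2 + b • x 3 := two_coeffs
    ((same2 h 2 3 (by decide)).1 (ind_sq2 (F := F) 2 3 (by decide)))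
    (fun H => dep_ssp (F := F) 2 3 ((same3 h 2 3 9 (by decide) (by decide) (by decide)).2 H))
    ((same2 h 2 9 (by decide)).1 (ind_sp (F := F) 2 3 (by decide)))
    ((same2 h 3 9 (by decide)).1 (by
      have := ind_sp (F := F) 3 2 (by decide)
      rwa [mul_comm (X 3) (X 2)] at this))
  obtain ⟨a01, b01, ha01, hb01, e01⟩ := c01
  obtain ⟨a02, b02, ha02, hb02, e02⟩ := c02
  obtain ⟨a03, b03, ha03, hb03, e03⟩ := c03
  obtain ⟨a12, b12, ha12, hb12, e12⟩ := c12
  obtain ⟨a13, b13, ha13, hb13, e13⟩ := c13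
  obtain ⟨a23, b23, ha23, hb23, e23⟩ := c23
  -- the three four-cycles
  have k1 : a01 * a12 * a23 * b03 = b01 * b12 * b23 * a03 := by
    apply cycle4 E4 hb01 ha12 hb12 ha23 hb23 hb03 ha03 ha01
    intro H
    have H2 : LinearIndependent K ![x 4, x 7, x 9, x 6] := by
      rw [e01, e12, e23, e03, add_comm (a03 • x 0)]; exact H
    exact dep_cycle (F := F) (X 0 * X 1) (X 1 * X 2) (X 2 * X 3) (X 0 * X 3) (by ring)
      ((same4 h 4 7 9 6 (by decide)).2 H2)
  have E4' : LinearIndependent K ![x 0, x 1, x 3, x 2] := by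
    have := E4.comp ![0, 1, 3, 2] (by decide)
    convert this using 1
    funext i; fin_cases i <;> rfl
  have k2 : a01 * a13 * b23 * b02 = b01 * b13 * a23 * a02 := by
    apply cycle4 E4' hb01 ha13 hb13 hb23 ha23 hb02 ha02 ha01
    intro H
    have H2 : LinearIndependent K ![x 4, x 8, x 9, x 5] := by
      rw [e01, e13, e23, e02, add_comm (a02 • x 0), add_comm (a23 • x 2)]; exact H
    exact dep_cycle (F := F) (X 0 * X 1) (X 1 * X 3) (X 2 * X 3) (X 0 * X 2) (by ring)
      ((same4 h 4 8 9 5 (by decide)).2 H2)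
  have E4'' : LinearIndependent K ![x 0, x 2, x 1, x 3] := by
    have := E4.comp ![0, 2, 1, 3] (by decide)
    convert this using 1
    funext i; fin_cases i <;> rfl
  have k3 : a02 * b12 * a13 * b03 = b02 * a12 * b13 * a03 := by
    apply cycle4 E4'' hb02 hb12 ha12 ha13 hb13 hb03 ha03 ha02
    intro H
    have H2 : LinearIndependent K ![x 5, x 7, x 8, x 6] := by
      rw [e02, e12, e13, e03, add_comm (a03 • x 0), add_comm (a12 • x 1)]; exact H
    exact dep_cycle (F := F) (X 0 * X 2) (X 1 * X 2) (X 1 * X 3) (X 0 * X 3) (by ring)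
      ((same4 h 5 7 8 6 (by decide)).2 H2)
  -- the triangle
  have k4 : a01 * a12 * b02 + b01 * b12 * a02 ≠ 0 := by
    intro H
    have I3 : LinearIndependent K ![x 4, x 7, x 5] :=
      (same3 h 4 7 5 (by decide) (by decide) (by decide)).1 ind_tri
    have := li3 I3 (a := a12 * b02) (b := - (b01 * b02)) (c := b01 * b12) (by
      rw [e01, e12, e02]
      have : (a12 * b02) • (a01 • x 0 + b01 • x 1) + (-(b01 * b02)) • (a12 • x 1 + b12 • x 2) +
        (b01 * b12) • (a02 • x 0 + b02 • x 2) =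
          (a01 * a12 * b02 + b01 * b12 * a02) • x 0 := by module
      rw [this, H, zero_smul])
    exact mul_ne_zero ha12 hb02 this.1
  have k5 : (a01 * a12 * b02) ^ 2 = (b01 * b12 * a02) ^ 2 := by
    have hne : a23 * b23 * (a13 * b03 * a03 * b13) ≠ 0 := by
      simp [ha23, hb23, ha13, hb03, ha03, hb13]
    apply mul_left_cancel₀ hne
    calc a23 * b23 * (a13 * b03 * a03 * b13) * (a01 * a12 * b02) ^ 2
        = (a01 * a12 * a23 * b03) * (a01 * a13 * b23 * b02) * (b02 * a12 * b13 * a03) := by ring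
      _ = (b01 * b12 * b23 * a03) * (b01 * b13 * a23 * a02) * (a02 * b12 * a13 * b03) := by
          rw [k1, k2, k3]
      _ = _ := by ring
  -- hence `2 ≠ 0` in `K`
  have k6 : a01 * a12 * b02 = b01 * b12 * a02 := by
    have : (a01 * a12 * b02 - b01 * b12 * a02) * (a01 * a12 * b02 + b01 * b12 * a02) = 0 := by
      linear_combination k5
    exact sub_eq_zero.1 ((mul_eq_zero.1 this).resolve_right k4)
  have two_ne : (2 : K) ≠ 0 := by
    intro H
    apply k4
    rw [k6]
    linear_combination (b01 * b12 * a02) * H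
  -- the Fano plane formed by the squares
  have d01 : ∃ a b : K, a ≠ 0 ∧ b ≠ 0 ∧ x 10 = a • x 0 + b • x 1 := two_coeffs
    ((same2 h 0 1 (by decide)).1 (ind_sq2 (F := F) 0 1 (by decide)))
    (fun H => dep_sum3 (F := F) (X 0 ^ 2) (X 1 ^ 2) ((X 0 + X 1) ^ 2)
      (by linear_combination (X 0 ^ 2 + X 1 ^ 2 + X 0 * X 1) * t2)
      ((same3 h 0 1 10 (by decide) (by decide) (by decide)).2 H))
    ((same2 h 0 10 (by decide)).1 (ind_sq_sum (F := F) 0 1 (by decide)))
    ((same2 h 1 10 (by decide)).1 (by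
      have := ind_sq_sum (F := F) 1 0 (by decide)
      rwa [add_comm (X 1) (X 0)] at this))
  have d02 : ∃ a b : K, a ≠ 0 ∧ b ≠ 0 ∧ x 11 = a • x 0 + b • x 2 := two_coeffs
    ((same2 h 0 2 (by decide)).1 (ind_sq2 (F := F) 0 2 (by decide)))
    (fun H => dep_sum3 (F := F) (X 0 ^ 2) (X 2 ^ 2) ((X 0 + X 2) ^ 2)
      (by linear_combination (X 0 ^ 2 + X 2 ^ 2 + X 0 * X 2) * t2)
      ((same3 h 0 2 11 (by decide) (by decide) (by decide)).2 H))
    ((same2 h 0 11 (by decide)).1 (ind_sq_sum (F := F) 0 2 (by decide)))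
    ((same2 h 2 11 (by decide)).1 (by
      have := ind_sq_sum (F := F) 2 0 (by decide)
      rwa [add_comm (X 2) (X 0)] at this))
  have d12 : ∃ a b : K, a ≠ 0 ∧ b ≠ 0 ∧ x 12 = a • x 1 + b • x 2 := two_coeffs
    ((same2 h 1 2 (by decide)).1 (ind_sq2 (F := F) 1 2 (by decide)))
    (fun H => dep_sum3 (F := F) (X 1 ^ 2) (X 2 ^ 2) ((X 1 + X 2) ^ 2)
      (by linear_combination (X 1 ^ 2 + X 2 ^ 2 + X 1 * X 2) * t2)
      ((same3 h 1 2 12 (by decide) (by decide) (by decide)).2 H))
    ((same2 h 1 12 (by decide)).1 (ind_sq_sum (F := F) 1 2 (by decide)))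
    ((same2 h 2 12 (by decide)).1 (by
      have := ind_sq_sum (F := F) 2 1 (by decide)
      rwa [add_comm (X 2) (X 1)] at this))
  obtain ⟨a, b, ha, hb, f01⟩ := d01
  obtain ⟨c, d, hc, hd, f02⟩ := d02
  obtain ⟨f, g, hf, hg, f12⟩ := d12
  -- the seventh point
  have I01 : LinearIndependent K ![x 0, x 1, x 13] :=
    (same3 h 0 1 13 (by decide) (by decide) (by decide)).1
      (ind_sq_sum3 (F := F) 0 1 2 (by decide) (by decide) (by decide))
  have I02 : LinearIndependent K ![x 0, x 2, x 13] :=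
    (same3 h 0 2 13 (by decide) (by decide) (by decide)).1 (by
      have := ind_sq_sum3 (F := F) 0 2 1 (by decide) (by decide) (by decide)
      rwa [show (X 0 + X 2 + X 1 : MvPolynomial (Fin 4) F) = X 0 + X 1 + X 2 by ring] at this)
  have I12 : LinearIndependent K ![x 1, x 2, x 13] :=
    (same3 h 1 2 13 (by decide) (by decide) (by decide)).1 (by
      have := ind_sq_sum3 (F := F) 1 2 0 (by decide) (by decide) (by decide)
      rwa [show (X 1 + X 2 + X 0 : MvPolynomial (Fin 4) F) = X 0 + X 1 + X 2 by ring] at this)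
  have D4 : ¬ LinearIndependent K ![x 0, x 1, x 2, x 13] := fun H =>
    dep_sum4 (F := F) (X 0 ^ 2) (X 1 ^ 2) (X 2 ^ 2) ((X 0 + X 1 + X 2) ^ 2)
      (by
        linear_combination (X 0 ^ 2 + X 1 ^ 2 + X 2 ^ 2 + X 0 * X 1 + X 0 * X 2 + X 1 * X 2) * t2)
      ((same4 h 0 1 2 13 (by decide)).2 H)
  obtain ⟨p0, p1, p2, p3, hp, hpn⟩ := nli4 D4
  have hp3 : p3 ≠ 0 := by
    rintro rfl
    have := li3 E3 (a := p0) (b := p1) (c := p2) (by simpa using hp)
    exact hpn ⟨this.1, this.2.1, this.2.2, rfl⟩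
  have hp0 : p0 ≠ 0 := by
    rintro rfl
    have := li3 I12 (a := p1) (b := p2) (c := p3) (by simpa using hp)
    exact hp3 this.2.2
  have hp1 : p1 ≠ 0 := by
    rintro rfl
    have := li3 I02 (a := p0) (b := p2) (c := p3) (by simpa using hp)
    exact hp3 this.2.2
  have hp2 : p2 ≠ 0 := by
    rintro rfl
    have := li3 I01 (a := p0) (b := p1) (c := p3) (by simpa using hp)
    exact hp3 this.2.2
  -- write `p3 x13 = - p0 x0 - p1 x1 - p2 x2`
  have hx : p3 • x 13 = -(p0 • x 0) - p1 • x 1 - p2 • x 2 := by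
    have : p3 • x 13 - (-(p0 • x 0) - p1 • x 1 - p2 • x 2) = 0 := by
      rw [← hp]; abel
    exact sub_eq_zero.1 this
  -- three lines through the seventh point
  have L1 : a * p1 = b * p0 := by
    have D : ¬ LinearIndependent K ![x 10, x 2, x 13] := fun H =>
      dep_sum3 (F := F) ((X 0 + X 1) ^ 2) (X 2 ^ 2) ((X 0 + X 1 + X 2) ^ 2)
        (by
          linear_combination (X 0 ^ 2 + X 1 ^ 2 + X 2 ^ 2 + 2 * X 0 * X 1 + X 0 * X 2 + X 1 * X 2) * t2)
        ((same3 h 10 2 13 (by decide) (by decide) (by decide)).2 H)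
    obtain ⟨q0, q1, q2, hq, hqn⟩ := nli3 D
    have h1 := li3 E3 (a := p3 * q0 * a - q2 * p0) (b := p3 * q0 * b - q2 * p1)
      (c := p3 * q1 - q2 * p2) (by
        have : p3 • (q0 • x 10 + q1 • x 2 + q2 • x 13) = 0 := by rw [hq, smul_zero]
        rw [← this, smul_add, smul_add, smul_smul p3 q2, mul_comm p3 q2, ← smul_smul q2 p3, hx,
          f01]
        module)
    obtain ⟨g1, g2, g3⟩ := h1
    have hq0 : q0 ≠ 0 := by
      rintro rfl
      have h1 : q2 = 0 := by
        have : q2 * p0 = 0 := by linear_combination -g1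
        exact (mul_eq_zero.1 this).resolve_right hp0
      subst h1
      have h2 : q1 = 0 := by
        have : p3 * q1 = 0 := by linear_combination g3
        exact (mul_eq_zero.1 this).resolve_left hp3
      exact hqn ⟨rfl, h2, rfl⟩
    have : (p3 * q0) * (a * p1 - b * p0) = 0 := by linear_combination p1 * g1 - p0 * g2
    exact sub_eq_zero.1 ((mul_eq_zero.1 this).resolve_left (mul_ne_zero hp3 hq0))
  have L2 : c * p2 = d * p0 := by
    have D : ¬ LinearIndependent K ![x 11, x 1, x 13] := fun H =>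
      dep_sum3 (F := F) ((X 0 + X 2) ^ 2) (X 1 ^ 2) ((X 0 + X 1 + X 2) ^ 2)
        (by
          linear_combination (X 0 ^ 2 + X 1 ^ 2 + X 2 ^ 2 + X 0 * X 1 + 2 * X 0 * X 2 + X 1 * X 2) * t2)
        ((same3 h 11 1 13 (by decide) (by decide) (by decide)).2 H)
    obtain ⟨q0, q1, q2, hq, hqn⟩ := nli3 D
    have h1 := li3 E3 (a := p3 * q0 * c - q2 * p0) (b := p3 * q1 - q2 * p1)
      (c := p3 * q0 * d - q2 * p2) (by
        have : p3 • (q0 • x 11 + q1 • x 1 + q2 • x 13) = 0 := by rw [hq, smul_zero]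
        rw [← this, smul_add, smul_add, smul_smul p3 q2, mul_comm p3 q2, ← smul_smul q2 p3, hx,
          f02]
        module)
    obtain ⟨g1, g2, g3⟩ := h1
    have hq0 : q0 ≠ 0 := by
      rintro rfl
      have h1 : q2 = 0 := by
        have : q2 * p0 = 0 := by linear_combination -g1
        exact (mul_eq_zero.1 this).resolve_right hp0
      subst h1
      have h2 : q1 = 0 := by
        have : p3 * q1 = 0 := by linear_combination g2
        exact (mul_eq_zero.1 this).resolve_left hp3
      exact hqn ⟨rfl, h2, rfl⟩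
    have : (p3 * q0) * (c * p2 - d * p0) = 0 := by linear_combination p2 * g1 - p0 * g3
    exact sub_eq_zero.1 ((mul_eq_zero.1 this).resolve_left (mul_ne_zero hp3 hq0))
  have L3 : f * p2 = g * p1 := by
    have D : ¬ LinearIndependent K ![x 12, x 0, x 13] := fun H =>
      dep_sum3 (F := F) ((X 1 + X 2) ^ 2) (X 0 ^ 2) ((X 0 + X 1 + X 2) ^ 2)
        (by
          linear_combination (X 0 ^ 2 + X 1 ^ 2 + X 2 ^ 2 + X 0 * X 1 + X 0 * X 2 + 2 * X 1 * X 2) * t2)
        ((same3 h 12 0 13 (by decide) (by decide) (by decide)).2 H)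
    obtain ⟨q0, q1, q2, hq, hqn⟩ := nli3 D
    have h1 := li3 E3 (a := p3 * q1 - q2 * p0) (b := p3 * q0 * f - q2 * p1)
      (c := p3 * q0 * g - q2 * p2) (by
        have : p3 • (q0 • x 12 + q1 • x 0 + q2 • x 13) = 0 := by rw [hq, smul_zero]
        rw [← this, smul_add, smul_add, smul_smul p3 q2, mul_comm p3 q2, ← smul_smul q2 p3, hx,
          f12]
        module)
    obtain ⟨g1, g2, g3⟩ := h1
    have hq0 : q0 ≠ 0 := by
      rintro rfl
      have h1 : q2 = 0 := by
        have : q2 * p1 = 0 := by linear_combination -g2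
        exact (mul_eq_zero.1 this).resolve_right hp1
      subst h1
      have h2 : q1 = 0 := by
        have : p3 * q1 = 0 := by linear_combination g1
        exact (mul_eq_zero.1 this).resolve_left hp3
      exact hqn ⟨rfl, h2, rfl⟩
    have : (p3 * q0) * (f * p2 - g * p1) = 0 := by linear_combination p2 * g2 - p1 * g3
    exact sub_eq_zero.1 ((mul_eq_zero.1 this).resolve_left (mul_ne_zero hp3 hq0))
  -- the line through the three sums of two
  have L4 : a * d * f + b * c * g = 0 := by
    have D : ¬ LinearIndependent K ![x 10, x 11, x 12] := fun H =>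
      dep_sum3 (F := F) ((X 0 + X 1) ^ 2) ((X 0 + X 2) ^ 2) ((X 1 + X 2) ^ 2)
        (by
          linear_combination (X 0 ^ 2 + X 1 ^ 2 + X 2 ^ 2 + X 0 * X 1 + X 0 * X 2 + X 1 * X 2) * t2)
        ((same3 h 10 11 12 (by decide) (by decide) (by decide)).2 H)
    obtain ⟨q0, q1, q2, hq, hqn⟩ := nli3 D
    have h1 := li3 E3 (a := q0 * a + q1 * c) (b := q0 * b + q2 * f)
      (c := q1 * d + q2 * g) (by
        rw [← hq, f01, f02, f12]
        module)
    obtain ⟨g1, g2, g3⟩ := h1
    have hq0 : q0 ≠ 0 := by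
      rintro rfl
      have h1 : q1 = 0 := by
        have : q1 * c = 0 := by linear_combination g1
        exact (mul_eq_zero.1 this).resolve_right hc
      have h2 : q2 = 0 := by
        have : q2 * f = 0 := by linear_combination g2
        exact (mul_eq_zero.1 this).resolve_right hf
      exact hqn ⟨rfl, h1, h2⟩
    have : q0 * (a * d * f + b * c * g) = 0 := by
      linear_combination (d * f) * g1 + (c * g) * g2 - (c * f) * g3
    exact (mul_eq_zero.1 this).resolve_left hq0
  -- hence `2 = 0` in `K`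
  apply two_ne
  have hne : a * c * f * (p2 * p0 * p1) ≠ 0 := by
    simp [ha, hc, hf, hp0, hp1, hp2]
  apply (mul_eq_zero.1 (show a * c * f * (p2 * p0 * p1) * 2 = 0 from ?_)).resolve_left hne
  have z : (a * d * f + b * c * g) * (p0 * p0 * p1) = 0 := by rw [L4, zero_mul]
  calc a * c * f * (p2 * p0 * p1) * 2
      = (a * f * p0 * p1) * (c * p2) + (c * p0) * (a * p1) * (f * p2) := by ring
    _ = (a * f * p0 * p1) * (d * p0) + (c * p0) * (b * p0) * (g * p1) := by rw [L1, L2, L3]
    _ = (a * d * f + b * c * g) * (p0 * p0 * p1) := by ring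
    _ = 0 := z

theorem forms_homogeneous (i : Fin 14) : (forms F i).IsHomogeneous 2 := by
  have hX : ∀ j : Fin 4, (X j : MvPolynomial (Fin 4) F).IsHomogeneous 1 :=
    fun j => isHomogeneous_X F j
  fin_cases i
  · exact (hX 0).pow 2
  · exact (hX 1).pow 2
  · exact (hX 2).pow 2
  · exact (hX 3).pow 2
  · exact (hX 0).mul (hX 1)
  · exact (hX 0).mul (hX 2)
  · exact (hX 0).mul (hX 3)
  · exact (hX 1).mul (hX 2)
  · exact (hX 1).mul (hX 3)
  · exact (hX 2).mul (hX 3)
  · exact ((hX 0).add (hX 1)).pow 2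
  · exact ((hX 0).add (hX 2)).pow 2
  · exact ((hX 1).add (hX 2)).pow 2
  · exact (((hX 0).add (hX 1)).add (hX 2)).pow 2

theorem ne_zero_of_eval {P : MvPolynomial (Fin 4) F} (y : Fin 4 → F) (h : eval y P = 1) :
    P ≠ 0 := by
  rintro rfl
  simp at h

theorem forms_ne_zero (i : Fin 14) : forms F i ≠ 0 := by
  fin_cases i
  · exact ne_zero_of_eval ![1, 1, 1, 1] (by simp [forms])
  · exact ne_zero_of_eval ![1, 1, 1, 1] (by simp [forms])
  · exact ne_zero_of_eval ![1, 1, 1, 1] (by simp [forms])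
  · exact ne_zero_of_eval ![1, 1, 1, 1] (by simp [forms])
  · exact ne_zero_of_eval ![1, 1, 1, 1] (by simp [forms])
  · exact ne_zero_of_eval ![1, 1, 1, 1] (by simp [forms])
  · exact ne_zero_of_eval ![1, 1, 1, 1] (by simp [forms])
  · exact ne_zero_of_eval ![1, 1, 1, 1] (by simp [forms])
  · exact ne_zero_of_eval ![1, 1, 1, 1] (by simp [forms])
  · exact ne_zero_of_eval ![1, 1, 1, 1] (by simp [forms])
  · exact ne_zero_of_eval ![1, 0, 0, 0] (by simp [forms])
  · exact ne_zero_of_eval ![1, 0, 0, 0] (by simp [forms])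
  · exact ne_zero_of_eval ![0, 1, 0, 0] (by simp [forms])
  · exact ne_zero_of_eval ![1, 0, 0, 0] (by simp [forms])

end main

/-- Over every field `F` of characteristic two there are fourteen homogeneous polynomials of degree
two in four variables whose algebraic matroid is not representable over any field. -/
theorem result (F : Type u) [Field F] [CharP F 2] :
    ∃ g : Fin 14 → MvPolynomial (Fin 4) F,
      (∀ i, (g i).IsHomogeneous 2 ∧ g i ≠ 0) ∧ ¬ AlgMatroidRepresentable.{u, v, w} F g := by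
  refine ⟨forms F, fun i => ⟨forms_homogeneous i, forms_ne_zero i⟩, ?_⟩
  · rintro ⟨K, _, V, _, _, x, hx⟩
    exact not_same x hx

end Pool.Agent.Results.MP_188fab_co.QuadricsNotLinear
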